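import Pool.Agent.Helper32.AG.Goals

/-! # Project AG: packet LEV (levels) -/

set_option autoImplicit false

namespace Pool.Agent.Helper16.AG

open Pool.Agent.Helper32.AG Finset

universe u

/-- The number of points of a product with exactly `j` coordinates different from `z`. -/
theorem count {s : ℕ} (R : Fin s → Type u) [∀ i, Finite (R i)] (z : ∀ i, R i) (q : ℕ)
    (hq : ∀ i, Nat.card (R i) = q) (j : ℕ) :
    Nat.card {w : ∀ i, R i // Nat.card {i // w i ≠ z i} = j} = s.choose j * (q - 1) ^ j := by
  classical
  let : ∀ i, Fintype (R i) := fun i => Fintype.ofFinite (R i)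
  have e0 : ∀ w : ∀ i, R i,
      Nat.card {i // w i ≠ z i} = (univ.filter fun i => w i ≠ z i).card := by
    intro w
    rw [Nat.card_eq_fintype_card, Fintype.card_subtype]
  have e1 : Nat.card {w : ∀ i, R i // Nat.card {i // w i ≠ z i} = j} =
      ((univ : Finset (∀ i, R i)).filter fun w => Nat.card {i // w i ≠ z i} = j).card := by
    rw [Nat.card_eq_fintype_card, Fintype.card_subtype]
  rw [e1]
  rw [Finset.card_eq_sum_card_fiberwise (f := fun w : ∀ i, R i => univ.filter fun i => w i ≠ z i)
    (t := powersetCard j (univ : Finset (Fin s)))]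
  · have h1 : ∀ S ∈ powersetCard j (univ : Finset (Fin s)),
        (((univ : Finset (∀ i, R i)).filter fun w => Nat.card {i // w i ≠ z i} = j).filter
          fun w => (univ.filter fun i => w i ≠ z i) = S).card = (q - 1) ^ j := by
      intro S hS
      have hSj : S.card = j := (mem_powersetCard.1 hS).2
      have h2 : (((univ : Finset (∀ i, R i)).filter fun w => Nat.card {i // w i ≠ z i} = j).filter
          fun w => (univ.filter fun i => w i ≠ z i) = S) =
          Fintype.piFinset fun i => if i ∈ S then univ.erase (z i) else {z i} := by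
        ext w
        rw [mem_filter, mem_filter, Fintype.mem_piFinset]
        constructor
        · rintro ⟨-, h3⟩ i
          by_cases hi : i ∈ S
          · rw [if_pos hi, mem_erase]
            rw [← h3, mem_filter] at hi
            exact ⟨hi.2, mem_univ _⟩
          · rw [if_neg hi, mem_singleton]
            rw [← h3, mem_filter] at hi
            by_contra h4
            exact hi ⟨mem_univ _, h4⟩
        · intro h3
          have h5 : (univ.filter fun i => w i ≠ z i) = S := by
            ext i
            rw [mem_filter]
            have h4 := h3 i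
            constructor
            · rintro ⟨-, h6⟩
              by_contra h7
              rw [if_neg h7, mem_singleton] at h4
              exact h6 h4
            · intro h6
              rw [if_pos h6, mem_erase] at h4
              exact ⟨mem_univ _, h4.1⟩
          exact ⟨⟨mem_univ _, by rw [e0, h5, hSj]⟩, h5⟩
      rw [h2, Fintype.card_piFinset]
      have h3 : ∀ i, (if i ∈ S then (univ : Finset (R i)).erase (z i) else {z i}).card =
          if i ∈ S then q - 1 else 1 := by
        intro i
        by_cases hi : i ∈ S
        · rw [if_pos hi, if_pos hi, card_erase_of_mem (mem_univ _), card_univ, ← hq i,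
            Nat.card_eq_fintype_card]
        · rw [if_neg hi, if_neg hi, card_singleton]
      rw [prod_congr rfl fun i _ => h3 i, prod_ite, prod_const, prod_const_one, mul_one,
        ← hSj]
      congr 2
      ext i
      simp
    rw [sum_congr rfl h1, sum_const, card_powersetCard, card_univ, Fintype.card_fin, smul_eq_mul]
  · intro w hw
    rw [mem_coe, mem_filter] at hw
    rw [mem_coe, mem_powersetCard]
    exact ⟨subset_univ _, by rw [← e0]; exact hw.2⟩

variable {p : ℕ} [Fact p.Prime] {U : Type u} [AddCommGroup U] [Module (ZMod p) U]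

/-- The decomposition. -/
noncomputable def phi {H A : Subgroup (U ≃ₗ[ZMod p] U)} {s q : ℕ}
    {e : Fin s → Module.End (ZMod p) U} (hD : Dec H A s q e) :
    U ≃ ∀ i, LinearMap.range (e i) where
  toFun u i := ⟨e i u, LinearMap.mem_range_self _ u⟩
  invFun w := ∑ i, (w i : U)
  left_inv u := by
    have h1 := congrArg (fun f : Module.End (ZMod p) U => f u) hD.sum
    simpa [LinearMap.sum_apply] using h1
  right_inv w := by
    funext i
    apply Subtype.ext
    change e i (∑ k, (w k : U)) = w i
    rw [map_sum, sum_eq_single i]
    · obtain ⟨x, hx⟩ := (w i).2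
      rw [← hx]
      exact congrArg (fun f : Module.End (ZMod p) U => f x) (hD.idem i)
    · intro k _ hk
      obtain ⟨x, hx⟩ := (w k).2
      rw [← hx]
      exact congrArg (fun f : Module.End (ZMod p) U => f x) (hD.orth i k hk.symm)
    · intro h
      exact absurd (mem_univ i) h

theorem e_inj {H A : Subgroup (U ≃ₗ[ZMod p] U)} {s q : ℕ}
    {e : Fin s → Module.End (ZMod p) U} (hD : Dec H A s q e) {i j : Fin s} (h : e i = e j) :
    i = j := by
  by_contra hne
  have h1 := hD.orth i j hne
  rw [← h, hD.idem i] at h1
  exact hD.ne i h1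

/-- **LEV.** -/
theorem lev : LevStmt.{u} := by
  intro p _ U _ _ _ H A s q e hs hD
  have hcard : ∀ i, Nat.card (LinearMap.range (e i)) = q := hD.card
  refine ⟨?_, ?_, fun u => Nat.card {i // e i u ≠ 0}, ?_, ?_⟩
  · have h0 := hD.ne ⟨0, hs⟩
    have h1 : ∃ u, e ⟨0, hs⟩ u ≠ 0 := by
      by_contra hcon
      apply h0
      ext u
      by_contra h2
      exact hcon ⟨u, h2⟩
    obtain ⟨u, hu⟩ := h1
    rw [← hcard ⟨0, hs⟩]
    have : Nontrivial (LinearMap.range (e ⟨0, hs⟩)) :=
      ⟨⟨e ⟨0, hs⟩ u, LinearMap.mem_range_self _ u⟩, 0, fun h => hu (congrArg Subtype.val h)⟩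
    exact Finite.one_lt_card
  · rw [Nat.card_congr (phi hD), Nat.card_pi]
    rw [prod_congr rfl fun i _ => hcard i, prod_const, card_univ, Fintype.card_fin]
  · intro h hh u
    have hh' : h⁻¹ ∈ H := inv_mem hh
    choose π hπ using hD.perm h⁻¹ hh'
    have hinj : Function.Injective π := by
      intro i i' hii
      have h1 : cj h⁻¹ (e i) = cj h⁻¹ (e i') := by rw [hπ, hπ, hii]
      apply e_inj hD
      ext v
      have h2 := congrArg (fun f : Module.End (ZMod p) U => h (f (h⁻¹ v))) h1
      simpa [cj] using h2
    have hbij : Function.Bijective π := Finite.injective_iff_bijective.1 hinj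
    have key : ∀ i, e i (h u) ≠ 0 ↔ e (π i) u ≠ 0 := by
      intro i
      have h1 : e (π i) u = h⁻¹ (e i (h u)) := by
        rw [← hπ i]
        simp [cj]
      rw [h1, Ne, Ne, not_iff_not]
      constructor
      · intro h2
        rw [h2, map_zero]
      · intro h2
        have h3 := congrArg h h2
        rw [map_zero] at h3
        simpa using h3
    exact Nat.card_congr ((Equiv.ofBijective π hbij).subtypeEquiv fun i => key i)
  · intro j
    rw [← count (fun i => LinearMap.range (e i)) (fun _ => 0) q hcard j]
    refine Nat.card_congr ((phi hD).subtypeEquiv fun u => ?_)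
    have h1 : Nat.card {i // e i u ≠ 0} = Nat.card {i // phi hD u i ≠ 0} := by
      refine Nat.card_congr ((Equiv.refl _).subtypeEquiv fun i => ?_)
      rw [Ne, Ne, not_iff_not]
      exact ⟨fun h2 => Subtype.ext h2, fun h2 => congrArg Subtype.val h2⟩
    change Nat.card {i // e i u ≠ 0} = j ↔ Nat.card {i // phi hD u i ≠ 0} = j
    rw [h1]

end Pool.Agent.Helper16.AG
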